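import Pool.Agent.W96.CL.Stm
set_option autoImplicit false

/-! Functional relations of `sC` and `rC`. -/

open Polynomial Filter Topology
open scoped ComplexConjugate

namespace W96CL

/-! ### the constants -/

lemma rs_sqrt3 : Real.sqrt 3 * Real.sqrt 3 = 3 := Real.mul_self_sqrt (by norm_num)

lemma rs_om_sq : om ^ 2 = -uu := by
  have h := rs_sqrt3
  apply Complex.ext
  · rw [sq, Complex.mul_re, Complex.neg_re]
    simp only [om, uu]
    nlinarith
  · rw [sq, Complex.mul_im, Complex.neg_im]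
    simp only [om, uu]
    ring

lemma rs_om_uu : om * uu = -1 := by
  have h := rs_sqrt3
  apply Complex.ext
  · rw [Complex.mul_re]
    simp only [om, uu]
    simp
    nlinarith
  · rw [Complex.mul_im]
    simp only [om, uu]
    simp
    ring

lemma rs_om3 : om ^ 3 = 1 := by
  have h : om ^ 3 = om * om ^ 2 := by ring
  rw [h, rs_om_sq, mul_neg, rs_om_uu, neg_neg]

lemma rs_om_ne : om ≠ 0 := by
  intro h
  have := rs_om3
  rw [h] at this
  norm_num at this

lemma rs_conj_om : conj om = om ^ 2 := by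
  rw [rs_om_sq]
  apply Complex.ext
  · rw [Complex.conj_re, Complex.neg_re]
    simp only [om, uu]
    ring
  · rw [Complex.conj_im, Complex.neg_im]
    simp only [om, uu]

lemma rs_exp_uu : Complex.exp (Real.pi / 3 * Complex.I) = uu := by
  have h : (Real.pi / 3 * Complex.I : ℂ) = ((Real.pi / 3 : ℝ) : ℂ) * Complex.I := by push_cast; rfl
  rw [h, Complex.exp_mul_I, ← Complex.ofReal_cos, ← Complex.ofReal_sin, Real.cos_pi_div_three,
    Real.sin_pi_div_three]
  apply Complex.ext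
  · simp [uu]
  · simp [uu]

lemma rs_exp_uu' : Complex.exp (-(Real.pi / 3 * Complex.I)) = -om := by
  have h : Complex.exp (-(Real.pi / 3 * Complex.I)) * uu = 1 := by
    rw [← rs_exp_uu, ← Complex.exp_add, neg_add_cancel, Complex.exp_zero]
  have h2 : -om * uu = 1 := by rw [neg_mul, rs_om_uu, neg_neg]
  have hu : uu ≠ 0 := by
    intro h0
    rw [h0, mul_zero] at h2
    exact zero_ne_one h2
  exact mul_right_cancel₀ hu (h.trans h2.symm)

lemma rs_neg_exp_pi (z : ℂ) : Complex.exp z = -Complex.exp ((Real.pi : ℝ) * Complex.I + z) := by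
  rw [Complex.exp_add, Complex.exp_pi_mul_I]
  ring

lemma rs_exp_om : Complex.exp (((2 * Real.pi / 3 : ℝ) : ℂ) * Complex.I) = om := by
  have h : (((2 * Real.pi / 3 : ℝ) : ℂ) * Complex.I) =
      (Real.pi : ℂ) * Complex.I + -(Real.pi / 3 * Complex.I) := by
    push_cast; ring
  rw [h, Complex.exp_add, Complex.exp_pi_mul_I, rs_exp_uu']
  ring

lemma rs_exp_om2 : Complex.exp (((-(2 * Real.pi / 3) : ℝ) : ℂ) * Complex.I) = om ^ 2 := by
  have h : Complex.exp (((-(2 * Real.pi / 3) : ℝ) : ℂ) * Complex.I) * om = 1 := by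
    rw [← rs_exp_om, ← Complex.exp_add]
    push_cast
    rw [show -(2 * (Real.pi : ℂ) / 3) * Complex.I + 2 * (Real.pi : ℂ) / 3 * Complex.I = 0 by ring,
      Complex.exp_zero]
  have h2 : om ^ 2 * om = 1 := by rw [← rs_om3]; ring
  exact mul_right_cancel₀ rs_om_ne (h.trans h2.symm)

lemma rs_real (p : ℝ[X]) (r : ℝ) : aeval (r : ℂ) p = ((p.eval r : ℝ) : ℂ) := by
  have h := Polynomial.aeval_algebraMap_apply ℂ r p
  rw [Complex.coe_algebraMap, Polynomial.coe_aeval_eq_eval] at h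
  exact h

/-! ### nonvanishing -/

section

variable {n : ℕ} {θ : ℝ}

lemma rs_cos (h0 : 0 < θ) (h1 : θ < Real.pi / 3) : 1 / 2 < Real.cos θ := by
  rw [← Real.cos_pi_div_three]
  exact Real.strictAntiOn_cos ⟨h0.le, by linarith [Real.pi_pos]⟩
    ⟨by positivity, by linarith [Real.pi_pos]⟩ h1

lemma rs_psi_ne (h0 : 0 < θ) (h1 : θ < Real.pi / 3) (α : ℝ) (z : ℂ)
    (hc : Real.cos (α + z.im) ≤ 1 / 2) : psi n θ (-Complex.exp (α * Complex.I + z)) ≠ 0 := by
  unfold psi
  apply pow_ne_zero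
  intro h
  obtain ⟨y, hy⟩ : ∃ y : ℂ, y = Complex.exp (α * Complex.I + z) := ⟨_, rfl⟩
  rw [← hy] at h
  have he : Complex.exp (θ * Complex.I) * Complex.exp (-(θ * Complex.I)) = 1 := by
    rw [← Complex.exp_add, add_neg_cancel, Complex.exp_zero]
  have hs : Complex.exp (θ * Complex.I) + Complex.exp (-(θ * Complex.I)) = 2 * Real.cos θ := by
    have := Complex.two_cos (x := (θ : ℂ))
    rw [Complex.ofReal_cos, this]
    rw [neg_mul]
  have hf : (y - Complex.exp (θ * Complex.I)) * (y - Complex.exp (-(θ * Complex.I))) = 0 := by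
    linear_combination h - y * hs + he
  have key : ∀ s : ℝ, s = θ ∨ s = -θ → y = Complex.exp (s * Complex.I) → False := by
    intro s hs hys
    have hn : Real.exp z.re = 1 := by
      have := congrArg norm (hy.symm.trans hys)
      rw [Complex.norm_exp, Complex.norm_exp] at this
      simpa using this
    have hr := congrArg Complex.re (hy.symm.trans hys)
    rw [Complex.exp_re, Complex.exp_re] at hr
    simp only [Complex.add_re, Complex.mul_re, Complex.ofReal_re, Complex.I_re, mul_zero,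
      Complex.ofReal_im, Complex.I_im, mul_one, sub_self, zero_add, Complex.add_im,
      Complex.mul_im, Real.exp_zero, one_mul, add_zero] at hr
    rw [hn, one_mul] at hr
    have hcs : Real.cos s = Real.cos θ := by
      rcases hs with h | h
      · rw [h]
      · rw [h, Real.cos_neg]
    have := rs_cos h0 h1
    rw [hr, hcs] at hc
    linarith
  rcases mul_eq_zero.1 hf with h' | h'
  · exact key θ (Or.inl rfl) (sub_eq_zero.1 h')
  · refine key (-θ) (Or.inr rfl) ?_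
    rw [sub_eq_zero.1 h']
    congr 1
    push_cast
    ring

lemma rs_cos_half {v : ℝ} (hv : |v| ≤ Real.pi / 3) : 1 / 2 ≤ Real.cos v := by
  rw [← Real.cos_abs v, ← Real.cos_pi_div_three]
  exact Real.cos_le_cos_of_nonneg_of_le_pi (abs_nonneg _) (by linarith [Real.pi_pos]) hv

lemma rs_cos_half2 {v : ℝ} (hv : |v| ≤ Real.pi / 3) : Real.cos (2 * Real.pi / 3 + v) ≤ 1 / 2 := by
  rw [abs_le] at hv
  rw [← Real.cos_pi_div_three]
  exact Real.cos_le_cos_of_nonneg_of_le_pi (by positivity) (by linarith) (by linarith)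

lemma rs_ne1 (h0 : 0 < θ) (h1 : θ < Real.pi / 3) {z : ℂ} (hz : |z.im| ≤ Real.pi / 3) :
    psi n θ (Complex.exp z) ≠ 0 := by
  rw [rs_neg_exp_pi]
  apply rs_psi_ne h0 h1
  rw [add_comm, Real.cos_add_pi]
  linarith [rs_cos_half hz]

lemma rs_ne2 (h0 : 0 < θ) (h1 : θ < Real.pi / 3) {z : ℂ} (hz : |z.im| ≤ Real.pi / 3) :
    psi n θ (-(om * Complex.exp z)) ≠ 0 := by
  rw [← rs_exp_om, ← Complex.exp_add]
  exact rs_psi_ne h0 h1 _ _ (rs_cos_half2 hz)

lemma rs_ne3 (h0 : 0 < θ) (h1 : θ < Real.pi / 3) {z : ℂ} (hz : |z.im| ≤ Real.pi / 3) :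
    psi n θ (-(om ^ 2 * Complex.exp z)) ≠ 0 := by
  rw [← rs_exp_om2, ← Complex.exp_add]
  apply rs_psi_ne h0 h1
  have : -(2 * Real.pi / 3) + z.im = -(2 * Real.pi / 3 + -z.im) := by ring
  rw [this, Real.cos_neg]
  exact rs_cos_half2 (by rwa [abs_neg])

lemma rs_ne4 (h0 : 0 < θ) (h1 : θ < Real.pi / 3) (u : ℝ) :
    psi n θ (om * Complex.exp u) ≠ 0 := by
  have h : om * Complex.exp u =
      -Complex.exp (((-(Real.pi / 3) : ℝ) : ℂ) * Complex.I + (u : ℂ)) := by
    rw [Complex.exp_add]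
    have : (((-(Real.pi / 3) : ℝ) : ℂ) * Complex.I) = -(Real.pi / 3 * Complex.I) := by
      push_cast; ring
    rw [this, rs_exp_uu']
    ring
  rw [h]
  apply rs_psi_ne h0 h1
  rw [Complex.ofReal_im, add_zero, Real.cos_neg, Real.cos_pi_div_three]

lemma rs_ne5 (h0 : 0 < θ) (h1 : θ < Real.pi / 3) (u : ℝ) :
    psi n θ (om ^ 2 * Complex.exp u) ≠ 0 := by
  have h : om ^ 2 * Complex.exp u =
      -Complex.exp (((Real.pi / 3 : ℝ) : ℂ) * Complex.I + (u : ℂ)) := by
    rw [Complex.exp_add]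
    have : (((Real.pi / 3 : ℝ) : ℂ) * Complex.I) = (Real.pi / 3 * Complex.I) := by
      push_cast; ring
    rw [this, rs_exp_uu, rs_om_sq]
    ring
  rw [h]
  apply rs_psi_ne h0 h1
  rw [Complex.ofReal_im, add_zero, Real.cos_pi_div_three]

/-! ### symmetries -/

lemma rs_phi (x : ℂ) : aeval x (phi n θ) = psi n θ x ^ 2 := by
  unfold phi psi
  rw [map_pow, map_add, map_add, map_mul, map_pow, aeval_X, aeval_C, map_one, ← pow_mul,
    mul_comm n 2]
  simp

lemma rs_psi_conj (x : ℂ) : psi n θ (conj x) = conj (psi n θ x) := by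
  unfold psi
  simp only [map_pow, map_add, map_mul, map_one, Complex.conj_ofReal, map_ofNat]

lemma rs_psi_inv {y : ℂ} (hy : y ≠ 0) : psi n θ y⁻¹ = psi n θ y / y ^ (2 * n) := by
  unfold psi
  rw [pow_mul, ← div_pow]
  congr 1
  field_simp
  ring

lemma rs_pal {t : ℝ[X]} (H : Rel n θ t) {y : ℂ} (hy : y ≠ 0) :
    aeval y⁻¹ t = aeval y t / y ^ (4 * n) := by
  rw [eq_div_iff (pow_ne_zero _ hy)]
  have hd : t.natDegree < 4 * n + 1 := Nat.lt_succ_of_le H.deg
  rw [aeval_eq_sum_range' hd, aeval_eq_sum_range' hd, Finset.sum_mul,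
    ← Finset.sum_range_reflect (fun i => t.coeff i • y ^ i)]
  refine Finset.sum_congr rfl fun k hk => ?_
  have hk' : k ≤ 4 * n := Nat.lt_succ_iff.1 (Finset.mem_range.1 hk)
  have h1 : 4 * n + 1 - 1 - k = 4 * n - k := by omega
  rw [h1, ← H.pal k hk', smul_mul_assoc]
  congr 1
  have h2 : y ^ (4 * n) = y ^ k * y ^ (4 * n - k) := by
    rw [← pow_add]
    congr 1
    omega
  rw [h2, ← mul_assoc, inv_pow, inv_mul_cancel₀ (pow_ne_zero _ hy), one_mul]

end

lemma rs_sC_conj (n : ℕ) (θ : ℝ) (t : ℝ[X]) (z : ℂ) :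
    sC n θ t (conj z) = conj (sC n θ t z) := by
  unfold sC
  rw [Complex.exp_conj, rs_psi_conj, aeval_conj, map_div₀, map_pow]

lemma rs_rC_conj (n : ℕ) (θ : ℝ) (Q : ℝ[X]) (z : ℂ) :
    rC n θ Q (conj z) = conj (rC n θ Q z) := by
  unfold rC
  have e1 : -Complex.exp (conj z) = conj (-Complex.exp z) := by rw [map_neg, ← Complex.exp_conj]
  have hc2 : conj (om ^ 2) = om := by
    rw [map_pow, rs_conj_om, ← pow_mul]
    have : om ^ (2 * 2) = om ^ 3 * om := by ring
    rw [this, rs_om3, one_mul]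
  have e2 : -(om * Complex.exp (conj z)) = conj (-(om ^ 2 * Complex.exp z)) := by
    rw [map_neg, map_mul, hc2, ← Complex.exp_conj]
  have e3 : -(om ^ 2 * Complex.exp (conj z)) = conj (-(om * Complex.exp z)) := by
    rw [map_neg, map_mul, rs_conj_om, ← Complex.exp_conj]
  rw [e1, e2, e3, rs_psi_conj, rs_psi_conj, rs_psi_conj, aeval_conj, map_div₀, map_mul, map_mul,
    map_mul, Complex.conj_ofReal]
  congr 1
  ring

lemma rs_sC_even {n : ℕ} {θ : ℝ} {t : ℝ[X]} (H : Rel n θ t) (z : ℂ) :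
    sC n θ t (-z) = sC n θ t z := by
  unfold sC
  have hx : Complex.exp z ≠ 0 := Complex.exp_ne_zero z
  rw [Complex.exp_neg, rs_pal H hx, rs_psi_inv hx, div_pow, ← pow_mul]
  have : 2 * n * 2 = 4 * n := by ring
  rw [this]
  exact div_div_div_cancel_right₀ (pow_ne_zero _ hx) _ _

lemma rs_rC_odd {n : ℕ} {θ : ℝ} {Q : ℝ[X]}
    (hQ : ∀ x : ℂ, x ≠ 0 → x ^ (2 * n) * aeval x⁻¹ Q = -aeval x Q) (z : ℂ) :
    rC n θ Q (-z) = -rC n θ Q z := by
  unfold rC
  have hx : Complex.exp z ≠ 0 := Complex.exp_ne_zero z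
  obtain ⟨x, hxd⟩ : ∃ x : ℂ, x = Complex.exp z := ⟨_, rfl⟩
  rw [Complex.exp_neg, ← hxd]
  rw [← hxd] at hx
  have hom := rs_om_ne
  have hx2 : x ^ (2 * n) ≠ 0 := pow_ne_zero _ hx
  have e1 : -x⁻¹ = (-x)⁻¹ := by rw [inv_neg]
  have e2 : -(om * x⁻¹) = (-(om ^ 2 * x))⁻¹ := by
    rw [inv_neg, mul_inv]
    congr 2
    rw [eq_comm, inv_eq_iff_eq_inv, eq_comm]
    apply inv_eq_of_mul_eq_one_left
    rw [← rs_om3]; ring
  have e3 : -(om ^ 2 * x⁻¹) = (-(om * x))⁻¹ := by
    rw [inv_neg, mul_inv]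
    congr 2
    rw [eq_comm, inv_eq_iff_eq_inv, eq_comm]
    apply inv_eq_of_mul_eq_one_left
    rw [← rs_om3]; ring
  have f1 : aeval (-x)⁻¹ Q = -aeval (-x) Q / x ^ (2 * n) := by
    have := hQ (-x) (neg_ne_zero.2 hx)
    rw [neg_pow, pow_mul (-1 : ℂ) 2 n, neg_one_sq, one_pow, one_mul] at this
    rw [eq_div_iff hx2, mul_comm]
    exact this
  have g1 : (-x) ^ (2 * n) = x ^ (2 * n) := by
    rw [neg_pow, pow_mul (-1 : ℂ) 2 n, neg_one_sq, one_pow, one_mul]
  have g2 : (-(om ^ 2 * x)) ^ (2 * n) * (-(om * x)) ^ (2 * n) = x ^ (2 * n) * x ^ (2 * n) := by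
    rw [← mul_pow, ← mul_pow]
    congr 1
    have : -(om ^ 2 * x) * -(om * x) = om ^ 3 * (x * x) := by ring
    rw [this, rs_om3, one_mul]
  rw [e2, e3, e1, f1, rs_psi_inv (neg_ne_zero.2 hx),
    rs_psi_inv (neg_ne_zero.2 (mul_ne_zero (pow_ne_zero 2 hom) hx)),
    rs_psi_inv (neg_ne_zero.2 (mul_ne_zero hom hx)), g1, div_mul_div_comm, g2]
  have : (Real.sqrt 3 : ℂ) * (-aeval (-x) Q / x ^ (2 * n)) * (psi n θ (-x) / x ^ (2 * n)) =
      -((Real.sqrt 3 : ℂ) * aeval (-x) Q * psi n θ (-x)) / (x ^ (2 * n) * x ^ (2 * n)) := by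
    field_simp
  rw [this, div_div_div_cancel_right₀ (mul_ne_zero hx2 hx2), neg_div,
    mul_comm (psi n θ (-(om ^ 2 * x)))]

/-! ### values on the boundary -/

section

variable {n : ℕ} {θ : ℝ} (t Q : ℝ[X]) (u : ℝ)

lemma rs_exp_p : Complex.exp (u + Real.pi / 3 * Complex.I) = -(om ^ 2 * Complex.exp u) := by
  rw [Complex.exp_add, rs_exp_uu, rs_om_sq]
  ring

lemma rs_exp_m : Complex.exp (u - Real.pi / 3 * Complex.I) = -(om * Complex.exp u) := by
  rw [sub_eq_add_neg, Complex.exp_add, rs_exp_uu']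
  ring

lemma rs_rp : rC n θ Q (u + Real.pi / 3 * Complex.I) =
    Real.sqrt 3 * aeval (om ^ 2 * Complex.exp u) Q * psi n θ (om ^ 2 * Complex.exp u) /
      (psi n θ (Complex.exp u) * psi n θ (om * Complex.exp u)) := by
  unfold rC
  rw [rs_exp_p]
  have e1 : -(om * -(om ^ 2 * Complex.exp u)) = Complex.exp u := by
    have : -(om * -(om ^ 2 * Complex.exp u)) = om ^ 3 * Complex.exp u := by ring
    rw [this, rs_om3, one_mul]
  have e2 : -(om ^ 2 * -(om ^ 2 * Complex.exp u)) = om * Complex.exp u := by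
    have : -(om ^ 2 * -(om ^ 2 * Complex.exp u)) = om ^ 3 * (om * Complex.exp u) := by ring
    rw [this, rs_om3, one_mul]
  rw [e1, e2, neg_neg]

lemma rs_rm : rC n θ Q (u - Real.pi / 3 * Complex.I) =
    Real.sqrt 3 * aeval (om * Complex.exp u) Q * psi n θ (om * Complex.exp u) /
      (psi n θ (om ^ 2 * Complex.exp u) * psi n θ (Complex.exp u)) := by
  unfold rC
  rw [rs_exp_m]
  have e1 : -(om * -(om * Complex.exp u)) = om ^ 2 * Complex.exp u := by ring
  have e2 : -(om ^ 2 * -(om * Complex.exp u)) = Complex.exp u := by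
    have : -(om ^ 2 * -(om * Complex.exp u)) = om ^ 3 * Complex.exp u := by ring
    rw [this, rs_om3, one_mul]
  rw [e1, e2, neg_neg]

lemma rs_conj_p : conj ((u : ℂ) + Real.pi / 3 * Complex.I) = u - Real.pi / 3 * Complex.I := by
  simp only [map_add, map_mul, map_div₀, Complex.conj_ofReal, Complex.conj_I, map_ofNat]
  ring

end

theorem cl_rs (hc : S_cons) : S_rs := by
  intro n θ t Q z0 H
  have h0 := H.th0
  have h1 := H.th1
  obtain ⟨hTQ, hanti, _, _⟩ := hc n θ t Q H.n1 h0 h1.le H.rel H.p1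
  have hs3 : (Real.sqrt 3 : ℂ) * Real.sqrt 3 = 3 := by
    rw [← Complex.ofReal_mul, rs_sqrt3]
    norm_num
  have imu : ∀ u : ℝ, |((u : ℂ)).im| ≤ Real.pi / 3 := by
    intro u
    rw [Complex.ofReal_im, abs_zero]
    positivity
  have imp : ∀ u : ℝ, |((u : ℂ) + Real.pi / 3 * Complex.I).im| ≤ Real.pi / 3 := by
    intro u
    have : ((u : ℂ) + Real.pi / 3 * Complex.I).im = Real.pi / 3 := by
      have h : (Real.pi / 3 * Complex.I : ℂ) = ((Real.pi / 3 : ℝ) : ℂ) * Complex.I := by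
        push_cast; rfl
      rw [h, Complex.add_im, Complex.ofReal_im, Complex.im_ofReal_mul, Complex.I_im]
      ring
    rw [this, abs_of_pos (by positivity)]
  -- first relation
  have R1 : ∀ u : ℝ, sC n θ t (u + Real.pi / 3 * Complex.I) *
      sC n θ t (u - Real.pi / 3 * Complex.I) = 1 + rC n θ Q u ^ 2 := by
    intro u
    have n1 : psi n θ (-(om * Complex.exp u)) ≠ 0 := rs_ne2 h0 h1 (imu u)
    have n2 : psi n θ (-(om ^ 2 * Complex.exp u)) ≠ 0 := rs_ne3 h0 h1 (imu u)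
    have hV := H.p1.VQ (-Complex.exp u)
    rw [rs_phi, rs_phi, rs_phi, mul_neg, mul_neg] at hV
    unfold sC rC
    rw [rs_exp_p, rs_exp_m]
    have e : ((Real.sqrt 3 : ℂ) * aeval (-Complex.exp u) Q * psi n θ (-Complex.exp u)) ^ 2 =
        3 * psi n θ (-Complex.exp u) ^ 2 * aeval (-Complex.exp u) Q ^ 2 := by
      linear_combination (aeval (-Complex.exp (u : ℂ)) Q * psi n θ (-Complex.exp u)) ^ 2 * hs3
    rw [div_pow, e, div_mul_div_comm]
    generalize psi n θ (-(om * Complex.exp (u : ℂ))) = a1 at n1 hV ⊢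
    generalize psi n θ (-(om ^ 2 * Complex.exp (u : ℂ))) = a2 at n2 hV ⊢
    generalize (aeval (-(om * Complex.exp (u : ℂ)))) t = t1 at hV ⊢
    generalize (aeval (-(om ^ 2 * Complex.exp (u : ℂ)))) t = t2 at hV ⊢
    generalize psi n θ (-Complex.exp (u : ℂ)) = a0 at hV ⊢
    generalize (aeval (-Complex.exp (u : ℂ))) Q = q0 at hV ⊢
    rw [div_eq_iff (mul_ne_zero (pow_ne_zero 2 n2) (pow_ne_zero 2 n1))]
    have h2 : (1 + 3 * a0 ^ 2 * q0 ^ 2 / (a1 * a2) ^ 2) * (a2 ^ 2 * a1 ^ 2) =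
        a1 ^ 2 * a2 ^ 2 + 3 * a0 ^ 2 * q0 ^ 2 := by
      field_simp
    rw [h2]
    linear_combination hV
  have R2 : ∀ u : ℝ, rC n θ Q (u + Real.pi / 3 * Complex.I) *
      rC n θ Q (u - Real.pi / 3 * Complex.I) = 1 - sC n θ t u := by
    intro u
    have n1 : psi n θ (om * Complex.exp u) ≠ 0 := rs_ne4 h0 h1 u
    have n2 : psi n θ (om ^ 2 * Complex.exp u) ≠ 0 := rs_ne5 h0 h1 u
    have n3 : psi n θ (Complex.exp u) ≠ 0 := rs_ne1 h0 h1 (imu u)
    have hk := H.p1.kQ (Complex.exp u)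
    rw [rs_phi] at hk
    rw [rs_rp, rs_rm]
    unfold sC
    field_simp
    linear_combination (aeval (om ^ 2 * Complex.exp (u : ℂ)) Q * aeval (om * Complex.exp (u : ℂ)) Q)
      * hs3 - hk
  have Rr : ∀ u : ℝ, conj (rC n θ Q u) = rC n θ Q u := by
    intro u
    rw [← rs_rC_conj, Complex.conj_ofReal]
  have Rs : ∀ u : ℝ, conj (sC n θ t u) = sC n θ t u := by
    intro u
    rw [← rs_sC_conj, Complex.conj_ofReal]
  refine ⟨fun z hz => ⟨?_, ?_⟩, fun z => ⟨rs_sC_conj n θ t z, rs_rC_conj n θ Q z⟩,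
    fun z _ => ⟨rs_sC_even H.rel z, rs_rC_odd hanti z⟩, R1, R2, ?_, ?_, ?_⟩
  · have hp : Differentiable ℂ (psi n θ) := by
      unfold psi
      fun_prop
    have ht : Differentiable ℂ fun z : ℂ => aeval z t := t.differentiable_aeval
    unfold sC
    refine DifferentiableAt.div ?_ ?_ (pow_ne_zero 2 (rs_ne1 h0 h1 hz))
    · exact (ht _).comp z Complex.differentiableAt_exp
    · exact ((hp _).comp z Complex.differentiableAt_exp).pow 2
  · have hp : Differentiable ℂ (psi n θ) := by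
      unfold psi
      fun_prop
    have ht : Differentiable ℂ fun z : ℂ => aeval z Q := Q.differentiable_aeval
    have he : DifferentiableAt ℂ (fun z : ℂ => -Complex.exp z) z :=
      Complex.differentiableAt_exp.neg
    have he1 : DifferentiableAt ℂ (fun z : ℂ => -(om * Complex.exp z)) z :=
      (Complex.differentiableAt_exp.const_mul om).neg
    have he2 : DifferentiableAt ℂ (fun z : ℂ => -(om ^ 2 * Complex.exp z)) z :=
      (Complex.differentiableAt_exp.const_mul (om ^ 2)).neg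
    unfold rC
    refine DifferentiableAt.div ?_ ?_ (mul_ne_zero (rs_ne2 h0 h1 hz) (rs_ne3 h0 h1 hz))
    · refine DifferentiableAt.mul (DifferentiableAt.const_mul ?_ _) ?_
      · exact (ht _).comp z he
      · exact (hp _).comp z he
    · exact DifferentiableAt.mul ((hp _).comp z he1) ((hp _).comp z he2)
  · intro u
    have h := R1 u
    rw [← rs_conj_p, rs_sC_conj, Complex.mul_conj, Complex.normSq_eq_norm_sq] at h
    have hr : (rC n θ Q u : ℂ) = ((rC n θ Q u).re : ℂ) := (Complex.conj_eq_iff_re.1 (Rr u)).symm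
    rw [hr] at h
    exact_mod_cast h
  · intro u
    have h := R2 u
    rw [← rs_conj_p, rs_rC_conj, Complex.mul_conj, Complex.normSq_eq_norm_sq] at h
    have hr : (sC n θ t u : ℂ) = ((sC n θ t u).re : ℂ) := (Complex.conj_eq_iff_re.1 (Rs u)).symm
    rw [hr] at h
    exact_mod_cast h
  · intro u
    have n1 : psi n θ (om * Complex.exp u) ≠ 0 := rs_ne4 h0 h1 u
    have n3 : psi n θ (Complex.exp u) ≠ 0 := rs_ne1 h0 h1 (imu u)
    have hE : ((Real.exp u : ℝ) : ℂ) = Complex.exp u := Complex.ofReal_exp u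
    have hEc : conj (Complex.exp (u : ℂ)) = Complex.exp u := by
      rw [← Complex.exp_conj, Complex.conj_ofReal]
    have hpc : conj (psi n θ (om * Complex.exp u)) = psi n θ (om ^ 2 * Complex.exp u) := by
      rw [← rs_psi_conj, map_mul, rs_conj_om, hEc]
    have hqc : conj (aeval (om * Complex.exp (u : ℂ)) Q) = aeval (om ^ 2 * Complex.exp (u : ℂ)) Q := by
      rw [← aeval_conj, map_mul, rs_conj_om, hEc]
    obtain ⟨a, ha⟩ : ∃ a : ℝ, a = (psi n θ (Complex.exp u)).re := ⟨_, rfl⟩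
    have hpr : psi n θ (Complex.exp u) = (a : ℂ) := by
      rw [ha]
      refine (Complex.conj_eq_iff_re.1 ?_).symm
      rw [← rs_psi_conj, hEc]
    have ha0 : (a : ℂ) ≠ 0 := by rw [← hpr]; exact n3
    obtain ⟨m, hm⟩ : ∃ m : ℝ, m = ‖psi n θ (om * Complex.exp u)‖ ^ 2 := ⟨_, rfl⟩
    have hm1 : psi n θ (om * Complex.exp u) * psi n θ (om ^ 2 * Complex.exp u) = (m : ℂ) := by
      rw [← hpc, Complex.mul_conj, Complex.normSq_eq_norm_sq, hm]
    have hm0 : (m : ℂ) ≠ 0 := by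
      rw [← hm1]
      exact mul_ne_zero n1 (rs_ne5 h0 h1 u)
    obtain ⟨w, hw⟩ : ∃ w : ℂ, w = psi n θ (om ^ 2 * Complex.exp u) ^ 2 *
      aeval (om ^ 2 * Complex.exp (u : ℂ)) Q := ⟨_, rfl⟩
    have hwc : conj w = psi n θ (om * Complex.exp u) ^ 2 * aeval (om * Complex.exp (u : ℂ)) Q := by
      rw [hw, ← hpc, ← hqc, map_mul, map_pow, Complex.conj_conj, Complex.conj_conj]
    have hT := hTQ (Complex.exp u)
    rw [rs_phi, rs_phi, ← hw, ← hwc, ← hE, rs_real, rs_real] at hT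
    have hwr : w.re = -(1 / 2) * (t.eval (Real.exp u) * Q.eval (Real.exp u)) := by
      have := congrArg Complex.re hT
      simp only [Complex.mul_re, Complex.ofReal_re, Complex.ofReal_im, Complex.sub_re,
        Complex.neg_re, Complex.conj_re] at this
      linarith
    have hr : rC n θ Q (u + Real.pi / 3 * Complex.I) =
        ((Real.sqrt 3 / (a * m) : ℝ) : ℂ) * w := by
      rw [rs_rp, hpr, hw]
      push_cast
      rw [div_mul_eq_mul_div, div_eq_div_iff (mul_ne_zero ha0 n1) (mul_ne_zero ha0 hm0), ← hm1]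
      ring
    rw [hr, Complex.re_ofReal_mul, hwr]
    rw [hE, ← ha, ← hm]
    ring

end W96CL
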